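import Pool.Agent.Lib.helper10.Con2

namespace Pool.Agent.Results.MP_7f80d9_lc.ClawW1

open Pool.Agent.Cx Pool.Agent.Cx.Con Pool.Agent.Cis SimpleGraph Relation

/-- the claw -/
def K13 : Σ n : ℕ, SimpleGraph (Fin n) := ⟨4, fromRel fun a _ => a = 0⟩

/-- CLIQUE reduces to `P` in polynomial time with the parameter `κ` bounded in the clique size -/
def W1Hard {α : Type} [Enc α] (P : α → Prop) (κ : α → ℕ) : Prop :=
  ∃ (F : List Bool → List Bool) (g : ℕ → ℕ), PolyTime F ∧ Computable g ∧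
    ∀ (M : List (List Bool)) (k : ℕ), IsGraph M →
      ∃ a, F (enc (M, k)) = enc a ∧ (¬ (graphOf M).CliqueFree k ↔ P a) ∧ κ a ≤ g k

lemma has_cl {V : Type} {G : SimpleGraph V} {L : List (V × V)} : Has K13 G L ↔
    ∃ c a b d, A G L c a ∧ A G L c b ∧ N G L a b ∧ A G L c d ∧ N G L a d ∧ N G L b d := by
  constructor
  · rintro ⟨z, h⟩
    have a : ∀ i : Fin 4, i ≠ 0 → A G L (z (0 : Fin 4)) (z i) := fun i e =>
      ⟨(h _ _ e.symm).1, (h _ _ e.symm).2.1 (by simp [K13, e.symm])⟩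
    have n : ∀ i j : Fin 4, i ≠ 0 → j ≠ 0 → i ≠ j → N G L (z i) (z j) := fun i j e f g =>
      ⟨(h _ _ g).1, fun x => by simpa [K13, e, f] using (h _ _ g).2.2 x⟩
    exact ⟨_, z (1 : Fin 4), z (2 : Fin 4), z (3 : Fin 4), by
      refine ⟨a _ ?_, a _ ?_, n _ _ ?_ ?_ ?_, a _ ?_, n _ _ ?_ ?_ ?_, n _ _ ?_ ?_ ?_⟩ <;> decide⟩
  · rintro ⟨c, a, b, d, h1, h2, h3, h4, h5, h6⟩
    have := And.intro h1.symm <| And.intro h2.symm <| And.intro h3.symm <| And.intro h4.symm <|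
      And.intro h5.symm h6.symm
    refine ⟨![c, a, b, d], ?_⟩
    simp only [A, N] at *
    simp [K13, Fin.forall_fin_succ, *]

abbrev Vy := ℕ × (ℕ × ℕ) × ℕ × ℕ

def tb : List (ℕ × ℕ) := [(2, 2), (2, 4), (2, 5), (2, 6), (4, 4), (4, 5), (4, 6), (5, 5), (5, 6), (6, 6),
  (3, 3), (3, 9), (3, 10), (9, 9), (9, 10), (10, 10), (7, 7), (7, 8), (8, 8), (7, 4), (7, 5), (7, 6),
  (8, 5), (11, 11), (11, 10), (0, 5), (0, 1), (1, 10), (1, 4)]
def ok (M : List (List Bool)) (k : ℕ) (p : Vy) : Prop :=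
  (p.1 = 0 ∧ p.2.1.1 < k ∧ p.2.1.2 = k ∧ p.2.2.1 = 0 ∧ p.2.2.2 = 0) ∨
  (p.1 = 1 ∧ p.2.1.1 < k ∧ p.2.1.2 < k ∧ p.2.2.1 = 0 ∧ p.2.2.2 = 0) ∨
  (p.1 = 2 ∧ p.2.1.1 < k ∧ p.2.1.2 = 0 ∧ p.2.2.1 < M.length ∧ p.2.2.2 = 0) ∨
  (p.1 = 3 ∧ p.2.1.1 < k ∧ p.2.1.2 < k ∧ p.2.2.1 < M.length ∧ p.2.2.2 < M.length ∧
    ((p.2.1.1 = p.2.1.2 ∧ p.2.2.1 = p.2.2.2) ∨ (p.2.1.1 ≠ p.2.1.2 ∧ ent M p.2.2.1 p.2.2.2 = true))) ∨
  (3 < p.1 ∧ p.1 < 12 ∧ p.2.1.1 ≤ 2 * (k * (k + 1)) ∧ p.2.1.2 = 0 ∧ p.2.2.1 = 0 ∧ p.2.2.2 = 0)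
def ss (p q : Vy) : Prop := (p.1, q.1) ∈ tb ∨ (p.1 = 0 ∧ q.1 = 2 ∧ p.2.1.1 = q.2.1.1) ∨
  (p.1 = 1 ∧ q.1 = 3 ∧ p.2.1 = q.2.1) ∨ (p.1 = 2 ∧ q.1 = 3 ∧
    ¬ (p.2.1.1 = q.2.1.1 ∧ p.2.2.1 = q.2.2.1) ∧ ¬ (p.2.1.1 = q.2.1.2 ∧ p.2.2.1 = q.2.2.2))
def rr (p q : Vy) : Prop := p ≠ q ∧ (ss p q ∨ ss q p)
instance (M : List (List Bool)) (k : ℕ) : DecidablePred (ok M k) := fun _ => by unfold ok; infer_instance
instance : DecidableRel rr := fun _ _ => by unfold rr ss; infer_instance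
def verts (I : List (List Bool) × ℕ) : List Vy :=
  (List.range 12 ×ˢ (List.range (2 * (I.2 * (I.2 + 1)) + 1) ×ˢ List.range (I.2 + 1)) ×ˢ
    List.range (I.1.length + 1) ×ˢ List.range (I.1.length + 1)).filter fun p => decide (ok I.1 I.2 p)
def red (I : List (List Bool) × ℕ) : List (List Bool) × ℕ :=
  (mat (verts I) fun p q => decide (rr p q), I.2 * (I.2 + 1))

lemma mem_verts {M : List (List Bool)} {k : ℕ} {p : Vy} : p ∈ verts (M, k) ↔ ok M k p := by
  obtain ⟨t, ⟨i, j⟩, u, v⟩ := p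
  have : k ≤ k * (k + 1) := Nat.le_mul_of_pos_right _ (by omega)
  simp only [verts, List.mem_filter, List.mem_product, List.mem_range, decide_eq_true_eq,
    and_iff_right_iff_imp, ok]
  omega

lemma red_pt : PT red := by
  have b1 : PT verts := PT.filter (PP.decide (by unfold ok; fun_prop)) (by fun_prop)
  refine PT.pair (PT.mat (by fun_prop) (PP.decide ?_)) (by fun_prop)
  unfold rr ss; fun_prop

def S0 (p q : ℕ) : Prop := T0 tb p q ∨ T0 [(0, 2), (1, 3), (2, 3)] p q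
def S1 (p q : ℕ) : Prop := T0 tb p q ∨ T0 [(1, 1), (1, 2), (1, 3), (1, 9)] p q
def S2 (p q : ℕ) : Prop := S1 p q ∨ T0 [(2, 3)] p q
def cm (p a : ℕ) : Prop := (p = 0 ∧ a = 2) ∨ (p = 3 ∧ a = 1) ∨ (p ≠ 0 ∧ a = p)
instance : DecidableRel S0 := fun _ _ => by unfold S0; infer_instance
instance : DecidableRel S1 := fun _ _ => by unfold S1; infer_instance
instance : DecidableRel S2 := fun _ _ => by unfold S2; infer_instance
instance : DecidableRel cm := fun _ _ => by unfold cm; infer_instance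

lemma rr_S0 {p q : Vy} (h : rr p q) : S0 p.1 q.1 := by
  have := h.2
  simp only [ss, S0, T0, List.mem_cons, Prod.mk.injEq, List.not_mem_nil, or_false] at *
  tauto

lemma tab1 : ¬ ∃ p < 12, ∃ a < 12, cm p a ∧ ∃ q < 12, S0 p q ∧ ∃ b < 12, cm q b ∧ ¬ S2 a b := by
  decide +kernel

set_option synthInstance.maxSize 1000 in
lemma tab2 : ¬ ∃ c < 12, c ≠ 0 ∧ ∃ a < 12, a ≠ 0 ∧ S2 c a ∧ ∃ b < 12, b ≠ 0 ∧ S2 c b ∧ ¬ S1 a b ∧
    ∃ d < 12, d ≠ 0 ∧ S2 c d ∧ ¬ S1 a d ∧ ¬ S1 b d := by decide +kernel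

def rt (y : ℕ → ℕ) (p : Vy) : Vy := if p.1 = 0 then (2, (p.2.1.1, 0), y p.2.1.1, 0) else
  if p.1 = 1 then (3, p.2.1, y p.2.1.1, y p.2.1.2) else p
def xv (k : ℕ) (a : ℕ × ℕ) : Vy := (if a.2 < k then 1 else 0, a, 0, 0)

def ta (y : ℕ → ℕ) (p : Vy) : ℕ :=
  if p.1 = 3 ∧ p.2.2.1 = y p.2.1.1 ∧ p.2.2.2 = y p.2.1.2 then 1 else p.1

section
variable {M : List (List Bool)} {k : ℕ} {y : ℕ → ℕ}

lemma o1 (hy : ∀ i < k, y i < M.length ∧ ∀ j < k, i ≠ j → ent M (y i) (y j) = true) {p : Vy}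
    (h : ok M k p) : ok M k (rt y p) := by
  unfold rt; split_ifs with a b
  · have := hy p.2.1.1; unfold ok at *; simp; omega
  · have := hy p.2.1.1; have := hy p.2.1.2; unfold ok at *; grind
  · exact h

lemma o2 {i j : ℕ} (a : i < k) (b : j < k + 1) : ok M k (xv k (i, j)) := by
  unfold ok xv; split_ifs <;> simp <;> omega

lemma o3 (p : Vy) : rt y (rt y p) = rt y p := by
  by_cases a : p.1 = 0 <;> by_cases b : p.1 = 1 <;> simp [rt, a, b]

lemma o4 {p : Vy} (h : ok M k p) (c : p.1 ≤ 1) : xv k p.2.1 = p ∧ p.2.1.1 < k ∧ p.2.1.2 < k + 1 := by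
  unfold ok at h
  refine ⟨?_, by omega, by omega⟩
  unfold xv; ext <;> (try split_ifs) <;> simp <;> omega

lemma o5 {p : Vy} (h : ok M k p) :
    p.1 < 12 ∧ ta y (rt y p) < 12 ∧ ta y (rt y p) ≠ 0 ∧ cm p.1 (ta y (rt y p)) := by
  have : p.1 < 12 := by unfold ok at h; omega
  by_cases a : p.1 = 0
  · simp [rt, ta, cm, a]
  by_cases b : p.1 = 1
  · simp [rt, ta, cm, b]
  simp only [rt, a, b, if_false, ta, cm]
  split_ifs <;> omega

lemma o6 {i j : ℕ} : rr (xv k (i, j)) (rt y (xv k (i, j))) := by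
  by_cases a : j < k <;> simp [rr, ss, rt, xv, a]

lemma tab3 : ∀ b < 12, S1 1 b → b = 0 ∨ b = 1 ∨ b = 2 ∨ b = 4 ∨ (3, b) ∈ tb := by decide

lemma o7 {p q : Vy} (a : ok M k p) (b : ok M k q) (c : p.1 ≠ 1) (d : 1 < q.1) (e : ta y p = 1)
    (s : S1 1 (ta y q)) : ∃ p' q', ok M k p' ∧ ok M k q' ∧ rt y p' = p ∧ rt y q' = q ∧
      (ss p' q' ∨ ss q' p') := by
  obtain ⟨p1, ⟨i, j⟩, u, v⟩ := p
  obtain ⟨q1, ⟨i', j'⟩, u', v'⟩ := q
  obtain ⟨rfl, rfl, rfl⟩ : p1 = 3 ∧ u = y i ∧ v = y j := by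
    unfold ta at e; split_ifs at e with h
    exacts [h, absurd e c]
  have r : ∀ p : Vy, 1 < p.1 → rt y p = p := fun p h => by rw [rt, if_neg (by omega), if_neg (by omega)]
  have a' : ok M k (1, (i, j), 0, 0) := by simp [ok] at a ⊢; omega
  have q12 : q1 < 12 := by simp [ok] at b; omega
  rcases tab3 _ (by unfold ta; split_ifs <;> omega) s with h | h | h | h | h
  · unfold ta at h; split_ifs at h; omega
  · refine ⟨_, _, a, b, r _ (by simp), r _ d, Or.inl (Or.inl ?_)⟩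
    unfold ta at h; split_ifs at h with x
    · simp at x; simp [x, tb]
    · omega
  · obtain rfl : q1 = 2 := by unfold ta at h; split_ifs at h <;> omega
    obtain ⟨b1, rfl, -, rfl⟩ : i' < k ∧ j' = 0 ∧ u' < M.length ∧ v' = 0 := by simpa [ok] using b
    by_cases x : u' = y i'
    · exact ⟨_, (0, (i', k), 0, 0), a', by simp [ok, b1], by simp [rt], by simp [rt, x],
        Or.inr (Or.inl (by simp [tb]))⟩
    · refine ⟨_, _, a, b, r _ (by simp), r _ d, Or.inr (Or.inr (Or.inr (Or.inr ?_)))⟩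
      simp only [true_and]
      constructor <;> rintro ⟨rfl, rfl⟩ <;> exact x rfl
  · obtain rfl : q1 = 4 := by unfold ta at h; split_ifs at h <;> omega
    exact ⟨_, _, a', b, by simp [rt], r _ d, Or.inl (Or.inl (by simp [tb]))⟩
  · refine ⟨_, _, a, b, r _ (by simp), r _ d, Or.inl (Or.inl ?_)⟩
    unfold ta at h; split_ifs at h with x
    · simp [tb] at h
    · exact h

lemma o8 (p : Vy) : 1 < (rt y p).1 := by unfold rt; split_ifs <;> (try simp only) <;> omega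

variable {V : Type} {G : SimpleGraph V} {f : V → Vy} {g : Vy → V}
  (h1 : ∀ a b, G.Adj a b ↔ rr (f a) (f b)) (hf : ∀ a, ok M k (f a)) (hg : ∀ p, ok M k p → f (g p) = p)
  (h3 : f.Injective)
include h1 hf hg h3

lemma fw (hy : ∀ i < k, y i < M.length ∧ ∀ j < k, i ≠ j → ent M (y i) (y j) = true) :
    Sol G (k * (k + 1)) fun L => ¬ Has K13 G L := by
  obtain ⟨L, hL⟩ : ∃ L, L = (List.range k ×ˢ List.range (k + 1)).map fun a =>
    (g (xv k a), g (rt y (xv k a))) := ⟨_, rfl⟩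
  have mL : ∀ p, p ∈ L ↔ ∃ i < k, ∃ j < k + 1, (g (xv k (i, j)), g (rt y (xv k (i, j)))) = p := by
    simp only [hL, List.mem_map, Prod.exists, List.mem_product, List.mem_range, and_assoc,
      exists_and_left, implies_true]
  have w1 : ∀ a b, R L a b → rt y (f a) = rt y (f b) := fun a b r => by
    induction r with
    | refl => rfl
    | tail _ e ih =>
      simp only [mL, Prod.mk.injEq] at e
      rcases e with ⟨i, a, j, b, rfl, rfl⟩ | ⟨i, a, j, b, rfl, rfl⟩ <;>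
      rw [ih, hg _ (o2 a b), hg _ (o1 hy (o2 a b)), o3]
  have w2 : ∀ a, R L a (g (rt y (f a))) := fun a => by
    by_cases c : (f a).1 ≤ 1
    · obtain ⟨e, x, z⟩ := o4 (hf a) c
      exact ReflTransGen.single (Or.inl ((mL _).2 ⟨_, x, _, z, by rw [e, h3 (hg _ (hf a))]⟩))
    · rw [rt, if_neg (by omega), if_neg (by omega), h3 (hg _ (hf a))]; exact .refl _
  have w3 : ∀ a p, ok M k p → rt y p = rt y (f a) → R L a (g p) := fun a p o e =>
    (w2 a).trans (by have := (w2 (g p)).symm; rwa [hg _ o, e] at this)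
  have t2 : ∀ a b, A G L a b → S2 (ta y (rt y (f a))) (ta y (rt y (f b))) := by
    rintro a b ⟨-, c, d, r, s, e⟩
    rw [w1 _ _ r, w1 _ _ s]
    by_contra q
    have x := o5 (y := y) (hf c)
    have z := o5 (y := y) (hf d)
    exact tab1 ⟨_, x.1, _, x.2.1, x.2.2.2, _, z.1, rr_S0 ((h1 _ _).1 e), _, z.2.1, z.2.2.2, q⟩
  have t4 : ∀ a b p q, ok M k p → ok M k q → rt y p = rt y (f a) → rt y q = rt y (f b) → N G L a b →
      ¬ (ss p q ∨ ss q p) := fun a b p q x z e1 e2 n c =>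
    n.2 ⟨_, _, w3 a p x e1, w3 b q z e2, (h1 _ _).2 (by
      rw [hg _ x, hg _ z]
      exact ⟨fun e => n.1 ((w3 a p x e1).trans (e ▸ w3 b q z e2).symm), c⟩)⟩
  have t5 : ∀ a b, N G L a b → ta y (rt y (f a)) = 1 → ¬ S1 1 (ta y (rt y (f b))) := fun a b n e c =>
    let ⟨p, q, x, z, e1, e2, c⟩ := o7 (o1 hy (hf a)) (o1 hy (hf b)) (o8 _).ne' (o8 _) e c
    t4 a b p q x z e1 e2 n c
  refine ⟨L, by simp [hL, List.length_product], ?_, fun h => ?_⟩
  · simp only [mL]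
    rintro _ ⟨i, a, j, b, rfl⟩
    rw [h1, hg _ (o2 a b), hg _ (o1 hy (o2 a b))]
    exact o6
  · obtain ⟨c, a, b, d, e1, e2, e3, e4, e5, e6⟩ := has_cl.1 h
    have t3 : ∀ a b, N G L a b → ¬ S1 (ta y (rt y (f a))) (ta y (rt y (f b))) := fun a b n c => by
      by_cases x : ta y (rt y (f a)) = 1
      · exact t5 a b n x (x ▸ c)
      by_cases z : ta y (rt y (f b)) = 1
      · exact t5 b a n.symm z (by rw [z] at c; exact c.imp Or.symm Or.symm)
      refine t4 a b _ _ (o1 hy (hf a)) (o1 hy (hf b)) (o3 _) (o3 _) n ?_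
      have : ∀ p, ta y p ≠ 1 → ta y p = p.1 := fun p => by rw [ta]; split_ifs <;> simp
      refine (c.resolve_right (by simp [T0, x, z])).imp (fun c => Or.inl ?_) fun c => Or.inl ?_ <;>
      rwa [this _ x, this _ z] at c
    have t1 := fun a => o5 (y := y) (hf a)
    exact tab2 ⟨_, (t1 c).2.1, (t1 c).2.2.1, _, (t1 a).2.1, (t1 a).2.2.1, t2 _ _ e1, _, (t1 b).2.1,
      (t1 b).2.2.1, t2 _ _ e2, t3 _ _ e3, _, (t1 d).2.1, (t1 d).2.2.1, t2 _ _ e4, t3 _ _ e5, t3 _ _ e6⟩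

lemma bw [Fintype V] (s : Sol G (k * (k + 1)) fun L => ¬ Has K13 G L) :
    ∃ y : ℕ → ℕ, ∀ i < k, y i < M.length ∧ ∀ j < k, i ≠ j → ent M (y i) (y j) = true := by
  classical
  obtain ⟨L, l1, l2, l3⟩ := s
  rw [has_cl] at l3
  have un : ∀ t, 3 < t → t < 12 → ∃ a, U L a ∧ (f a).1 = t := fun t t1 t2 => by
    have o : ∀ j < 2 * (k * (k + 1)) + 1, f (g (t, (j, 0), 0, 0)) = (t, (j, 0), 0, 0) := fun j _ =>
      hg _ (by simp [ok]; omega)
    obtain ⟨a, x, y⟩ := Finset.exists_mem_notMem_of_card_lt_card (s := tch L)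
      (t := (Finset.range (2 * (k * (k + 1)) + 1)).image fun j => g (t, (j, 0), 0, 0)) (by
        rw [Finset.card_image_of_injOn fun a x b y e => by
          simp only [Finset.coe_range, Set.mem_Iio] at x y
          simpa [o a x, o b y] using congrArg f e]
        have := card_tch (L := L); simp; omega)
    obtain ⟨j, x', rfl⟩ := Finset.mem_image.1 x
    exact ⟨_, by simpa [mem_tch] using y, by rw [o j (Finset.mem_range.1 x')]⟩
  obtain ⟨x4, y4, z4⟩ := un 4 (by simp) (by simp)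
  obtain ⟨x5, y5, z5⟩ := un 5 (by simp) (by simp)
  obtain ⟨x6, y6, z6⟩ := un 6 (by simp) (by simp)
  obtain ⟨x7, y7, z7⟩ := un 7 (by simp) (by simp)
  obtain ⟨x8, y8, z8⟩ := un 8 (by simp) (by simp)
  obtain ⟨x9, y9, z9⟩ := un 9 (by simp) (by simp)
  obtain ⟨x10, y10, z10⟩ := un 10 (by simp) (by simp)
  obtain ⟨x11, y11, z11⟩ := un 11 (by simp) (by simp)
  have ne : ∀ {a b}, (f a).1 ≠ (f b).1 → a ≠ b := fun e c => e (c ▸ rfl)
  have s0 : ∀ {a b}, G.Adj a b → S0 (f a).1 (f b).1 := fun e => rr_S0 ((h1 _ _).1 e)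
  have aa : ∀ {x y z i j l}, U L z → R L x y → (f x).1 = l → (f y).1 = i → (f z).1 = j →
      l ≠ j ∧ i ≠ j ∧ T0 tb i j → A G L x z := by
    rintro x y z _ _ _ s r rfl rfl rfl e
    exact s.a (ne e.1) r ((h1 _ _).2 ⟨fun c => e.2.1 (by rw [c]), e.2.2.imp Or.inl Or.inl⟩)
  have nn : ∀ {x y i j}, U L x → U L y → (f x).1 = i → (f y).1 = j → i ≠ j ∧ ¬ S0 i j → N G L x y := by
    rintro x y _ _ s r rfl rfl e
    exact s.n r (ne e.1) fun c => e.2 (s0 c)
  have nu : ∀ {x y}, U L y → (f x).1 ≠ (f y).1 → (∀ a, R L x a → ¬ G.Adj a y) → N G L x y :=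
    fun s e q => ⟨fun r => ne e (s.eq r.symm).symm, fun r => let ⟨a, r, j⟩ := s.ca.1 r; q a r j⟩
  have lt : ∀ a, (f a).1 < 12 := fun a => (o5 (y := id) (hf a)).1
  have f0 : ∀ a, (f a).1 = 0 → ∃ v, R L a v ∧ (f v).1 ∈ [2, 4, 5, 6, 7, 8] := fun a e => by
    by_contra c
    have t : ∀ i < 12, S0 i 6 ∨ S0 i 8 → i ∈ [2, 4, 5, 6, 7, 8] := by decide
    exact l3 ⟨x5, a, x6, x8, (aa y5 (.refl _) e e z5 (by decide)).symm, aa y6 (.refl _) z5 z5 z6 (by decide),
      nu y6 (by omega) fun b r j => c ⟨b, r, t _ (lt b) (Or.inl (z6 ▸ s0 j))⟩,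
      aa y8 (.refl _) z5 z5 z8 (by decide),
      nu y8 (by omega) fun b r j => c ⟨b, r, t _ (lt b) (Or.inr (z8 ▸ s0 j))⟩, nn y6 y8 z6 z8 (by decide)⟩
  have f1 : ∀ a, (f a).1 = 1 → ∃ v, R L a v ∧ (f v).1 ∈ [3, 9, 10, 11] := fun a e => by
    by_contra c
    have t : ∀ i < 12, S0 i 9 ∨ S0 i 11 → i ∈ [3, 9, 10, 11] := by decide
    exact l3 ⟨x10, a, x9, x11, (aa y10 (.refl _) e e z10 (by decide)).symm,
      aa y9 (.refl _) z10 z10 z9 (by decide),
      nu y9 (by omega) fun b r j => c ⟨b, r, t _ (lt b) (Or.inl (z9 ▸ s0 j))⟩,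
      aa y11 (.refl _) z10 z10 z11 (by decide),
      nu y11 (by omega) fun b r j => c ⟨b, r, t _ (lt b) (Or.inr (z11 ▸ s0 j))⟩,
      nn y9 y11 z9 z11 (by decide)⟩
  have uq : ∀ v w, 1 < (f v).1 → 1 < (f w).1 → R L v w → v = w := fun v w a b r => by
    by_contra c
    have c1 := card_cl L ((Finset.univ.filter fun a => 1 < (f a).1).erase w)
    rw [Finset.filter_true_of_mem, Finset.card_erase_of_mem (by simpa)] at c1
    · have c2 := Finset.card_filter_add_card_filter_not (s := Finset.univ) fun a => 1 < (f a).1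
      have c3 : 0 < (Finset.univ.filter fun a => 1 < (f a).1).card := Finset.card_pos.2 ⟨v, by simpa⟩
      have c4 := Finset.card_le_card_of_injOn (s := Finset.range k ×ˢ Finset.range (k + 1))
        (t := Finset.univ.filter fun a => ¬ 1 < (f a).1) (fun a => g (xv k a)) (fun a h => by
          simp only [Finset.coe_product, Finset.coe_range, Set.mem_prod, Set.mem_Iio] at h
          simp only [Finset.coe_filter, Finset.mem_univ, true_and, Set.mem_ofPred_eq]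
          rw [hg _ (o2 h.1 h.2), xv]
          split_ifs <;> simp) fun a x b z e => by
          simp only [Finset.coe_product, Finset.coe_range, Set.mem_prod, Set.mem_Iio] at x z
          have := congrArg f e
          rw [hg _ (o2 x.1 x.2), hg _ (o2 z.1 z.2)] at this
          exact congrArg (·.2.1) this
      simp only [Finset.card_product, Finset.card_range] at c4
      omega
    · intro x _
      obtain ⟨z, z1, z2⟩ : ∃ z, R L x z ∧ 1 < (f z).1 := by
        by_cases e : 1 < (f x).1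
        · exact ⟨x, .refl _, e⟩
        rcases (by omega : (f x).1 = 0 ∨ (f x).1 = 1) with e | e
        · exact (f0 x e).imp fun z h => ⟨h.1, by have := h.2; simp at this; omega⟩
        · exact (f1 x e).imp fun z h => ⟨h.1, by have := h.2; simp at this; omega⟩
      by_cases e : z = w
      · exact ⟨v, by simp [a, c], r.trans (e ▸ z1.symm)⟩
      · exact ⟨z, by simp [z2, e], z1.symm⟩
  have st : ∀ a, ¬ U L a → ∃ t, R L a t ∧ G.Adj a t := fun a e => by
    simp only [U, not_forall, not_and_or, not_not] at e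
    obtain ⟨p, e, rfl | rfl⟩ := e
    exacts [⟨_, ReflTransGen.single (Or.inl e), l2 p e⟩, ⟨_, ReflTransGen.single (Or.inr e), (l2 p e).symm⟩]
  have key : ∀ i < k, ∀ j < k, ∃ u w, ok M k (3, (i, j), u, w) ∧ ∀ l v, (l = i ∧ v = u) ∨ (l = j ∧ v = w) →
      R L (g (2, (l, 0), v, 0)) (g (0, (l, k), 0, 0)) := fun i hi j hj => by
    obtain ⟨x, hx⟩ : ∃ x, f x = (1, (i, j), 0, 0) := ⟨_, hg _ (by simp [ok, hi, hj])⟩
    have x1 : (f x).1 = 1 := by rw [hx]
    obtain ⟨v, v1, v2⟩ := f1 x x1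
    simp only [List.mem_cons, List.not_mem_nil, or_false] at v2
    have cl : ∀ a, R L x a → (f a).1 = 1 ∨ a = v := fun a r => by
      rcases (by omega : (f a).1 = 0 ∨ (f a).1 = 1 ∨ 1 < (f a).1) with e | e | e
      · obtain ⟨b, b1, b2⟩ := f0 a e
        simp only [List.mem_cons, List.not_mem_nil, or_false] at b2
        obtain rfl := uq _ _ (by omega) (by omega) (v1.symm.trans (r.trans b1))
        omega
      · exact Or.inl e
      · exact Or.inr (uq _ _ e (by omega) (r.symm.trans v1))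
    obtain ⟨t, t1, t2⟩ := st x fun e => by obtain rfl := e.eq v1; omega
    obtain rfl := (cl t t1).resolve_left fun e => by
      have := s0 t2; rw [x1, e] at this; revert this; decide
    have t3 : (f t).1 ≠ 10 := fun e => l3 ⟨x, x9, x11, x4, aa y9 t1 x1 e z9 (by decide),
      aa y11 t1 x1 e z11 (by decide), nn y9 y11 z9 z11 (by decide), aa y4 (.refl _) x1 x1 z4 (by decide),
      nn y9 y4 z9 z4 (by decide), nn y11 y4 z11 z4 (by decide)⟩
    obtain ⟨u, w, e⟩ : ∃ u w, f t = (3, (i, j), u, w) := by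
      have := ((h1 _ _).1 t2).2
      rw [hx] at this
      refine ⟨_, _, Prod.ext ?_ (Prod.ext ?_ rfl)⟩ <;> simp [ss, tb] at this ⊢ <;> grind
    have o := e ▸ hf t
    refine ⟨u, w, o, fun l v c => ?_⟩
    obtain ⟨b, hb, b0⟩ : ∃ b, f b = (2, (l, 0), v, 0) ∧ g (2, (l, 0), v, 0) = b :=
      ⟨_, hg _ (by simp [ok] at o ⊢; omega), rfl⟩
    have b1 : (f b).1 = 2 := by rw [hb]
    rw [b0]
    by_cases q : U L b
    · refine (l3 ⟨x4, x, b, x7, (aa y4 (.refl _) x1 x1 z4 (by decide)).symm,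
        aa q (.refl _) z4 z4 b1 (by decide), nu q (by omega) fun a r j => ?_,
        aa y7 (.refl _) z4 z4 z7 (by decide), nu y7 (by omega) fun a r j => ?_,
        nn q y7 b1 z7 (by decide)⟩).elim
      · rcases cl a r with r | rfl
        · have := s0 j; rw [r, b1] at this; revert this; decide
        · have := ((h1 _ _).1 j).2
          rw [e, hb] at this
          simp [ss, tb] at this; omega
      · have := s0 j
        rcases cl a r with r | rfl
        · rw [r, z7] at this; revert this; decide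
        · rw [e, z7] at this; revert this; simp only; decide
    · obtain ⟨a, a1, a2⟩ := st b q
      have a3 : ¬ 1 < (f a).1 := fun c => a2.ne (uq _ _ (by omega) c a1)
      have a4 := ((h1 _ _).1 a2).2
      have a5 := hf a
      rw [hb] at a4
      rwa [show (0, (l, k), 0, 0) = f a by
        simp [ss, tb, ok] at a4 a5; ext <;> simp <;> omega, h3 (hg _ a5)]
  choose! u w hu using key
  have e : ∀ l < k, ∀ a < M.length, ∀ b < M.length, R L (g (2, (l, 0), a, 0)) (g (0, (l, k), 0, 0)) →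
      R L (g (2, (l, 0), b, 0)) (g (0, (l, k), 0, 0)) → a = b := fun l c a x b z r s => by
    have p := hg (2, (l, 0), a, 0) (by simp [ok, c, x])
    have q := hg (2, (l, 0), b, 0) (by simp [ok, c, z])
    have := congrArg f (uq _ _ (by simp [p]) (by simp [q]) (r.trans s.symm))
    simpa [p, q] using this
  have b : ∀ i < k, ∀ j < k, u i j < M.length ∧ w i j < M.length ∧ (i ≠ j → ent M (u i j) (w i j) = true) :=
    fun i x j z => by have := (hu i x j z).1; simp [ok] at this; tauto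
  refine ⟨fun i => u i i, fun i x => ⟨(b i x i x).1, fun j z c => ?_⟩⟩
  have := b i x j z
  dsimp only
  rw [e i x _ (b i x i x).1 _ this.1 ((hu i x i x).2 _ _ (by simp)) ((hu i x j z).2 _ _ (by simp)),
    e j z _ (b j z j z).1 _ this.2.1 ((hu j z j z).2 _ _ (by simp)) ((hu i x j z).2 _ _ (by simp))]
  exact this.2.2 c

end

theorem result : W1Hard (FreeCon {K13}) Prod.snd := by
  refine ⟨fun x => enc (red (decode x)), fun k => k * (k + 1), polyTime_of_PT (red_pt.comp (by fun_prop)),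
    (Primrec.nat_mul.comp .id .succ).to_comp, fun M k hM => ⟨red (M, k), by simp, ?_, le_rfl⟩⟩
  obtain ⟨h0, f, h1, h2, h3, -⟩ := graph_kit (verts (M, k)) rr (fun p q h => ⟨h.1.symm, h.2.symm⟩)
    (fun p h => h.1 rfl) ((List.nodup_range.product ((List.nodup_range.product List.nodup_range).product
      (List.nodup_range.product List.nodup_range))).filter _) (M := (red (M, k)).1) rfl
  simp only [freeCon, h0, true_and, Set.mem_singleton_iff, forall_eq, mem_verts] at h2 ⊢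
  have : Nonempty (Fin (red (M, k)).1.length) := ⟨((h2 (4, (0, 0), 0, 0)).2 (by simp [ok])).choose⟩
  have hg : ∀ p, ok M k p → f (Function.invFun f p) = p := fun p h => Function.invFun_eq ((h2 p).2 h)
  have hf : ∀ a, ok M k (f a) := fun a => (h2 _).1 ⟨a, rfl⟩
  constructor
  · intro h
    obtain ⟨φ⟩ := (graphOf M).not_cliqueFree_iff_top_isContained k |>.1 h
    refine fw h1 hf hg h3 (y := fun i => if h : i < k then φ ⟨i, h⟩ else 0) fun i hi =>
      ⟨by simp [hi], fun j hj d => ?_⟩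
    simpa [hi, hj, ← adj_iff hM] using
      φ.toHom.map_adj (show (⊤ : SimpleGraph (Fin k)).Adj ⟨i, hi⟩ ⟨j, hj⟩ by simpa)
  · intro h
    obtain ⟨v, hv⟩ := bw h1 hf hg h3 h
    have a : ∀ i j : Fin k, i ≠ j → (graphOf M).Adj ⟨v i, (hv i i.2).1⟩ ⟨v j, (hv j j.2).1⟩ :=
      fun i j d => (adj_iff hM _ _).2 ((hv i i.2).2 j j.2 (Fin.val_ne_of_ne d))
    exact SimpleGraph.IsContained.not_cliqueFree ⟨⟨fun i => ⟨v i, (hv i i.2).1⟩, fun d => a _ _ d⟩,
      fun i j d => by_contra fun c => (a i j c).ne d⟩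

end Pool.Agent.Results.MP_7f80d9_lc.ClawW1
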